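import Pool.Agent.W2helper93.RT.ENE

set_option autoImplicit false

/-! Piece LEN: the `L²` norms in polar coordinates. -/

open MeasureTheory Set Filter Topology

namespace Pool.Agent.W2helper93.RT

open Pool.Agent.W2helper90.RT

noncomputable section

variable {k m : ℕ}

lemma cons_Ph (x : X m) (w : S k) :
    (Fin.cons (Real.log ‖(Ph x (w : E k)).1‖) (Ph x (w : E k)).2 : X m) = x := by
  have h1 : ‖(Ph x (w : E k)).1‖ = Real.exp (x 0) := by
    show ‖Real.exp (x 0) • (w : E k)‖ = _
    rw [norm_smul, Pool.Agent.N303.SH.S_norm, mul_one, Real.norm_of_nonneg (Real.exp_pos _).le]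
  rw [h1, Real.log_exp]
  funext i
  refine Fin.cases ?_ (fun j => ?_) i
  · rfl
  · rfl

theorem t_LEN (hP : S_POL) : S_LEN := by
  intro k m hk u hu V hV hVb
  obtain ⟨C, hC⟩ := hVb
  obtain ⟨K, hK, h0⟩ := good_K hu
  have hsub : Continuous (fun q : X m × S k => ((q.1, (q.2 : E k)) : X m × E k)) :=
    continuous_fst.prodMk (continuous_subtype_val.comp continuous_snd)
  have hzU : ∀ x, x ∉ K → ∀ w : S k, UU u x w = 0 := fun x hx w => by
    show Real.exp (al k * x 0) * u (Ph x w) = 0
    rw [(h0 x hx w (Pool.Agent.N303.SH.S_norm w)).1, mul_zero]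
  have hi0 : Integrable (fun q : X m × S k => Real.exp (2 * q.1 0) * UU u q.1 q.2 ^ 2)
      (volume.prod (sm k)) := by
    have h1 : Continuous (fun q : X m × S k => Real.exp (2 * q.1 0)) := by fun_prop
    refine int_of_K (h1.mul (((cont_UU hu).comp hsub).pow 2)) hK fun x hx w => ?_
    show Real.exp (2 * x 0) * UU u x w ^ 2 = 0
    rw [hzU x hx]; ring
  have hi1 : Integrable (fun q : X m × S k => V q.1 * (Real.exp (2 * q.1 0) * UU u q.1 q.2 ^ 2))
      (volume.prod (sm k)) := by
    refine hi0.bdd_mul (c := C) (hV.comp measurable_fst).aestronglyMeasurable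
      (Eventually.of_forall fun q => ?_)
    rw [Real.norm_eq_abs]
    exact hC q.1
  have heq : ∀ q : X m × S k, Real.exp (k * q.1 0) *
      (fun z : Z k m => V (Fin.cons (Real.log ‖z.1‖) z.2 : X m) * u z ^ 2) (Ph q.1 (q.2 : E k)) =
      V q.1 * (Real.exp (2 * q.1 0) * UU u q.1 q.2 ^ 2) := fun q => by
    show Real.exp (k * q.1 0) * (V (Fin.cons (Real.log ‖(Ph q.1 (q.2 : E k)).1‖)
      (Ph q.1 (q.2 : E k)).2 : X m) * u (Ph q.1 (q.2 : E k)) ^ 2) = _
    rw [cons_Ph]
    have he : Real.exp (k * q.1 0) = Real.exp (2 * q.1 0) * Real.exp (al k * q.1 0) ^ 2 := by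
      rw [← Real.exp_nat_mul, ← Real.exp_add, al_eq (k := k)]
      congr 1; push_cast; ring
    rw [he]
    show _ = V q.1 * (Real.exp (2 * q.1 0) * (Real.exp (al k * q.1 0) *
      u (Ph q.1 (q.2 : E k))) ^ 2)
    ring
  have hfm : Measurable (fun z : Z k m => V (Fin.cons (Real.log ‖z.1‖) z.2 : X m) * u z ^ 2) := by
    apply Measurable.mul
    · apply hV.comp
      refine measurable_pi_lambda _ fun i => ?_
      refine Fin.cases ?_ (fun j => ?_) i
      · simp only [Fin.cons_zero]
        fun_prop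
      · simp only [Fin.cons_succ]
        fun_prop
    · exact (hu.smooth.continuous.measurable).pow_const 2
  have hii : Integrable (fun q : X m × S k => Real.exp (k * q.1 0) *
      (fun z : Z k m => V (Fin.cons (Real.log ‖z.1‖) z.2 : X m) * u z ^ 2) (Ph q.1 (q.2 : E k)))
      (volume.prod (sm k)) := by
    simp only [heq]; exact hi1
  obtain ⟨-, h2⟩ := pol_int hP (by omega : 1 ≤ k) _ hfm hii
  have h3 : ∀ x : X m, ∫ w : S k, V x * (Real.exp (2 * x 0) * UU u x w ^ 2) ∂(sm k) =
      Real.exp (2 * x 0) * V x * ∫ w : S k, UU u x w ^ 2 ∂(sm k) := fun x => by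
    rw [integral_const_mul, integral_const_mul]; ring
  refine ⟨?_, ?_⟩
  · have h4 := hi1.integral_prod_left
    simp only [h3] at h4
    exact h4
  · rw [h2]
    simp only [heq]
    rw [integral_prod _ hi1]
    simp only [h3]

end

end Pool.Agent.W2helper93.RT
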