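import Pool.Agent.W2helper93.RT.Set0

set_option autoImplicit false

/-! Piece ENE: the kinetic energy in polar coordinates. -/

open MeasureTheory Set Filter Topology

namespace Pool.Agent.W2helper93.RT

open Pool.Agent.W2helper90.RT

noncomputable section

variable {k m : ℕ}

/-- the linear map `x ↦ (x 1, …, x m)` -/
def tlL (m : ℕ) : X m →L[ℝ] (Fin m → ℝ) :=
  ContinuousLinearMap.pi fun i => ContinuousLinearMap.proj i.succ

lemma tlL_apply (x : X m) : tlL m x = tl x := by
  funext i; simp [tlL, tl]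

/-- the derivative of the polar map in `x` -/
def dPx (x : X m) (w : E k) : X m →L[ℝ] Z k m :=
  ((Real.exp (x 0) • (ContinuousLinearMap.proj 0 : X m →L[ℝ] ℝ)).smulRight w).prod (tlL m)

lemma hasFDerivAt_Ph (x : X m) (w : E k) : HasFDerivAt (fun x : X m => Ph x w) (dPx x w) x := by
  have h0 : HasFDerivAt (fun x : X m => x 0) (ContinuousLinearMap.proj 0 : X m →L[ℝ] ℝ) x :=
    (ContinuousLinearMap.proj 0 : X m →L[ℝ] ℝ).hasFDerivAt
  have h1 := h0.exp.smul_const w
  have h2 : HasFDerivAt (fun x : X m => tl x) (tlL m) x := by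
    have := (tlL m).hasFDerivAt (x := x)
    have h3 : (fun x : X m => tl x) = fun x => tlL m x := by
      funext y; rw [tlL_apply]
    rw [h3]; exact this
  exact h1.prodMk h2

lemma diff_u {u : Z k m → ℝ} (hu : Good u) (z : Z k m) : HasFDerivAt u (fderiv ℝ u z) z :=
  (hu.smooth.differentiable (by norm_num) z).hasFDerivAt

lemma hasFDerivAt_UU {u : Z k m → ℝ} (hu : Good u) (x : X m) (w : E k) :
    HasFDerivAt (fun x : X m => UU u x w)
      (Real.exp (al k * x 0) • ((fderiv ℝ u (Ph x w)).comp (dPx x w)) +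
        u (Ph x w) • (Real.exp (al k * x 0) •
          (al k • (ContinuousLinearMap.proj 0 : X m →L[ℝ] ℝ)))) x := by
  have h0 : HasFDerivAt (fun x : X m => al k * x 0)
      (al k • (ContinuousLinearMap.proj 0 : X m →L[ℝ] ℝ)) x :=
    ((ContinuousLinearMap.proj 0 : X m →L[ℝ] ℝ).hasFDerivAt).const_mul (al k)
  have h1 := h0.exp
  have h2 := (diff_u hu (Ph x w)).comp x (hasFDerivAt_Ph x w)
  exact h1.mul h2

lemma fderiv_UU {u : Z k m → ℝ} (hu : Good u) (x : X m) (w : E k) :
    fderiv ℝ (fun x : X m => UU u x w) x (Pi.single 0 1) = U0 u x w := by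
  rw [(hasFDerivAt_UU hu x w).fderiv]
  have h1 : dPx x w (Pi.single 0 1) = Real.exp (x 0) • ((w, 0) : Z k m) := by
    refine Prod.ext ?_ ?_
    · simp [dPx]
    · simp only [dPx, ContinuousLinearMap.prod_apply, tlL_apply]
      funext i
      simp [tl]
  simp only [ContinuousLinearMap.add_apply, ContinuousLinearMap.smul_apply,
    ContinuousLinearMap.comp_apply, h1, map_smul, smul_eq_mul, ContinuousLinearMap.proj_apply,
    Pi.single_eq_same]
  unfold U0 UU
  rw [show (al k + 1) * x 0 = al k * x 0 + x 0 by ring, Real.exp_add]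
  show _ = al k * (Real.exp (al k * x 0) * u (Ph x w)) +
    Real.exp (al k * x 0) * Real.exp (x 0) * fderiv ℝ u (Ph x w) (w, 0)
  ring

/-- the derivative of `UU u x` in `w` -/
lemma fderiv_UUw {u : Z k m → ℝ} (hu : Good u) (x : X m) (w v : E k) :
    fderiv ℝ (UU u x) w v = Real.exp ((al k + 1) * x 0) * fderiv ℝ u (Ph x w) (v, 0) := by
  have h1 : HasFDerivAt (fun w : E k => Ph x w)
      ((Real.exp (x 0) • ContinuousLinearMap.id ℝ (E k)).prod (0 : E k →L[ℝ] (Fin m → ℝ))) w := by
    have h2 : HasFDerivAt (fun w : E k => Real.exp (x 0) • w)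
        (Real.exp (x 0) • ContinuousLinearMap.id ℝ (E k)) w :=
      (hasFDerivAt_id w).const_smul (Real.exp (x 0))
    exact h2.prodMk (hasFDerivAt_const (tl x) w)
  have h3 := ((diff_u hu (Ph x w)).comp w h1).const_mul (Real.exp (al k * x 0))
  have h4 : HasFDerivAt (UU u x) _ w := h3
  rw [h4.fderiv]
  have h5 : ((Real.exp (x 0) • ContinuousLinearMap.id ℝ (E k)).prod
      (0 : E k →L[ℝ] (Fin m → ℝ))) v = Real.exp (x 0) • ((v, 0) : Z k m) := by
    refine Prod.ext ?_ ?_ <;> simp
  simp only [ContinuousLinearMap.smul_apply, ContinuousLinearMap.comp_apply, h5, map_smul,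
    smul_eq_mul]
  rw [show (al k + 1) * x 0 = al k * x 0 + x 0 by ring, Real.exp_add]
  ring

lemma cont_fd {u : Z k m → ℝ} (hu : Good u) : Continuous (fderiv ℝ u) :=
  hu.smooth.continuous_fderiv (by norm_num)

lemma cont_UU {u : Z k m → ℝ} (hu : Good u) :
    Continuous (fun q : X m × E k => UU u q.1 q.2) := by
  have h1 : Continuous (fun q : X m × E k => Real.exp (al k * q.1 0)) := by fun_prop
  exact h1.mul (hu.smooth.continuous.comp cont_Ph)

lemma cont_dir {u : Z k m → ℝ} (hu : Good u) {f : X m × E k → Z k m} (hf : Continuous f) :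
    Continuous (fun q : X m × E k => fderiv ℝ u (Ph q.1 q.2) (f q)) :=
  ((cont_fd hu).comp cont_Ph).clm_apply hf

lemma cont_U0 {u : Z k m → ℝ} (hu : Good u) :
    Continuous (fun q : X m × E k => U0 u q.1 q.2) := by
  have h1 : Continuous (fun q : X m × E k => Real.exp ((al k + 1) * q.1 0)) := by fun_prop
  have h2 : Continuous (fun q : X m × E k => ((q.2, 0) : Z k m)) :=
    continuous_snd.prodMk continuous_const
  exact (continuous_const.mul (cont_UU hu)).add (h1.mul (cont_dir hu h2))

lemma cont_Uj {u : Z k m → ℝ} (hu : Good u) (j : Fin m) :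
    Continuous (fun q : X m × E k => Uj u j q.1 q.2) := by
  have h1 : Continuous (fun q : X m × E k => Real.exp (al k * q.1 0)) := by fun_prop
  exact h1.mul (cont_dir hu continuous_const)

/-- the tangential term -/
lemma tang_UU {u : Z k m → ℝ} (hu : Good u) (x : X m) (w : E k) :
    tang (UU u x) w = ∑ i, (Real.exp ((al k + 1) * x 0) *
      fderiv ℝ u (Ph x w) (EuclideanSpace.single i (1 : ℝ), 0)) ^ 2 -
      (Real.exp ((al k + 1) * x 0) * fderiv ℝ u (Ph x w) (w, 0)) ^ 2 := by
  unfold tang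
  simp only [fderiv_UUw hu]

lemma cont_tang {u : Z k m → ℝ} (hu : Good u) :
    Continuous (fun q : X m × E k => tang (UU u q.1) q.2) := by
  simp only [tang_UU hu]
  have h1 : Continuous (fun q : X m × E k => Real.exp ((al k + 1) * q.1 0)) := by fun_prop
  have h2 : Continuous (fun q : X m × E k => ((q.2, 0) : Z k m)) :=
    continuous_snd.prodMk continuous_const
  refine Continuous.sub (continuous_finsetSum _ fun i _ => ?_) ?_
  · exact (h1.mul (cont_dir hu continuous_const)).pow 2
  · exact (h1.mul (cont_dir hu h2)).pow 2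

/-- the integrand in polar coordinates -/
def GG (u : Z k m → ℝ) (x : X m) (w : E k) : ℝ :=
  U0 u x w ^ 2 + al k ^ 2 * UU u x w ^ 2 + tang (UU u x) w +
    Real.exp (2 * x 0) * ∑ j, Uj u j x w ^ 2

lemma cont_GG {u : Z k m → ℝ} (hu : Good u) :
    Continuous (fun q : X m × E k => GG u q.1 q.2) := by
  unfold GG
  have h1 : Continuous (fun q : X m × E k => Real.exp (2 * q.1 0)) := by fun_prop
  refine Continuous.add (Continuous.add (Continuous.add ((cont_U0 hu).pow 2)
    (continuous_const.mul ((cont_UU hu).pow 2))) (cont_tang hu)) (h1.mul ?_)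
  exact continuous_finsetSum _ fun j _ => (cont_Uj hu j).pow 2

lemma al_eq : (k : ℝ) = 2 * (al k + 1) := by
  unfold al; ring

/-- the pointwise identity -/
lemma gr2_eq {u : Z k m → ℝ} (hu : Good u) (x : X m) (w : E k) :
    Real.exp (k * x 0) * gr2 u (Ph x w) = GG u x w - 2 * al k * (UU u x w * U0 u x w) := by
  have he : Real.exp (k * x 0) = Real.exp ((al k + 1) * x 0) ^ 2 := by
    rw [← Real.exp_nat_mul, al_eq (k := k)]
    congr 1; push_cast; ring
  have he2 : Real.exp ((al k + 1) * x 0) ^ 2 = Real.exp (2 * x 0) * Real.exp (al k * x 0) ^ 2 := by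
    rw [← Real.exp_nat_mul, ← Real.exp_nat_mul, ← Real.exp_add]
    congr 1; push_cast; ring
  have hU0 : U0 u x w = al k * UU u x w +
      Real.exp ((al k + 1) * x 0) * fderiv ℝ u (Ph x w) (w, 0) := rfl
  have hUj : ∀ j, Uj u j x w = Real.exp (al k * x 0) *
      fderiv ℝ u (Ph x w) (0, Pi.single j 1) := fun j => rfl
  have h1 : ∑ i : Fin k, (Real.exp ((al k + 1) * x 0) *
      fderiv ℝ u (Ph x w) (EuclideanSpace.single i (1 : ℝ), 0)) ^ 2 =
      Real.exp ((al k + 1) * x 0) ^ 2 *
        ∑ i : Fin k, fderiv ℝ u (Ph x w) (EuclideanSpace.single i (1 : ℝ), 0) ^ 2 := by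
    rw [Finset.mul_sum]
    exact Finset.sum_congr rfl fun i _ => by ring
  have h2 : Real.exp (2 * x 0) * ∑ j, Uj u j x w ^ 2 = Real.exp ((al k + 1) * x 0) ^ 2 *
      ∑ j : Fin m, fderiv ℝ u (Ph x w) (0, Pi.single j 1) ^ 2 := by
    rw [he2, Finset.mul_sum, Finset.mul_sum]
    exact Finset.sum_congr rfl fun j _ => by rw [hUj j]; ring
  unfold GG gr2
  rw [h2, tang_UU hu, h1, he, hU0]
  ring

/-- the integral over `x` of `UU * U0` is zero -/
lemma cross {u : Z k m → ℝ} (hu : Good u) (w : E k) (hw : ‖w‖ = 1) :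
    ∫ x : X m, UU u x w * U0 u x w = 0 := by
  obtain ⟨K, hK, h0⟩ := good_K hu
  have hc1 : Continuous (fun x : X m => UU u x w) :=
    (cont_UU hu).comp (continuous_id.prodMk continuous_const)
  have hc2 : Continuous (fun x : X m => U0 u x w) :=
    (cont_U0 hu).comp (continuous_id.prodMk continuous_const)
  have hz1 : ∀ x, x ∉ K → UU u x w = 0 := fun x hx => by
    show Real.exp (al k * x 0) * u (Ph x w) = 0
    rw [(h0 x hx w hw).1, mul_zero]
  have hs1 : HasCompactSupport (fun x : X m => UU u x w) :=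
    HasCompactSupport.of_support_subset_isCompact hK fun x hx => by
      by_contra hcon
      exact hx (hz1 x hcon)
  have hi1 : Integrable (fun x : X m => fderiv ℝ (fun x : X m => UU u x w) x (Pi.single 0 1) *
      UU u x w) := by
    simp only [fderiv_UU hu]
    exact (hc2.mul hc1).integrable_of_hasCompactSupport hs1.mul_left
  have hi2 : Integrable (fun x : X m => UU u x w *
      fderiv ℝ (fun x : X m => UU u x w) x (Pi.single 0 1)) := by
    simp only [fderiv_UU hu]
    exact (hc1.mul hc2).integrable_of_hasCompactSupport hs1.mul_right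
  have hi3 : Integrable (fun x : X m => UU u x w * UU u x w) :=
    (hc1.mul hc1).integrable_of_hasCompactSupport hs1.mul_right
  have hd : ∀ x, DifferentiableAt ℝ (fun x : X m => UU u x w) x := fun x =>
    (hasFDerivAt_UU hu x w).differentiableAt
  have h := integral_mul_fderiv_eq_neg_fderiv_mul_of_integrable hi1 hi2 hi3 (fun x _ => hd x)
    (fun x _ => hd x)
  simp only [fderiv_UU hu] at h
  have h2 : ∫ x : X m, U0 u x w * UU u x w = ∫ x : X m, UU u x w * U0 u x w := by
    congr 1; funext x; ring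
  rw [h2] at h
  linarith

theorem t_ENE (hP : S_POL) : S_ENE := by
  intro k m hk u hu
  obtain ⟨K, hK, h0⟩ := good_K hu
  have hsub : Continuous (fun q : X m × S k => ((q.1, (q.2 : E k)) : X m × E k)) :=
    continuous_fst.prodMk (continuous_subtype_val.comp continuous_snd)
  have hzU : ∀ x, x ∉ K → ∀ w : S k, UU u x w = 0 := fun x hx w => by
    show Real.exp (al k * x 0) * u (Ph x w) = 0
    rw [(h0 x hx w (Pool.Agent.N303.SH.S_norm w)).1, mul_zero]
  have hzF : ∀ x, x ∉ K → ∀ w : S k, fderiv ℝ u (Ph x (w : E k)) = 0 := fun x hx w =>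
    (h0 x hx w (Pool.Agent.N303.SH.S_norm w)).2
  -- integrability
  have hGi : Integrable (fun q : X m × S k => GG u q.1 q.2) (volume.prod (sm k)) := by
    refine int_of_K ((cont_GG hu).comp hsub) hK fun x hx w => ?_
    have h1 : U0 u x w = 0 := by
      show al k * UU u x w + Real.exp ((al k + 1) * x 0) * fderiv ℝ u (Ph x (w : E k)) (w, 0) = 0
      rw [hzU x hx, hzF x hx]; simp
    have h2 : ∀ j, Uj u j x w = 0 := fun j => by
      show Real.exp (al k * x 0) * fderiv ℝ u (Ph x (w : E k)) (0, Pi.single j 1) = 0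
      rw [hzF x hx]; simp
    show U0 u x w ^ 2 + al k ^ 2 * UU u x w ^ 2 + tang (UU u x) w +
      Real.exp (2 * x 0) * ∑ j, Uj u j x w ^ 2 = 0
    rw [h1, hzU x hx, tang_UU hu, hzF x hx]
    simp [h2]
  have hCi : Integrable (fun q : X m × S k => UU u q.1 q.2 * U0 u q.1 q.2)
      (volume.prod (sm k)) := by
    refine int_of_K (((cont_UU hu).comp hsub).mul ((cont_U0 hu).comp hsub)) hK fun x hx w => ?_
    show UU u x w * U0 u x w = 0
    rw [hzU x hx, zero_mul]
  have hC0 : ∫ q : X m × S k, UU u q.1 q.2 * U0 u q.1 q.2 ∂(volume.prod (sm k)) = 0 := by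
    rw [integral_prod_symm _ hCi]
    have h1 : ∀ w : S k, ∫ x : X m, UU u x w * U0 u x w = 0 := fun w =>
      cross hu w (Pool.Agent.N303.SH.S_norm w)
    simp only [h1, integral_zero]
  have heq : ∀ q : X m × S k, Real.exp (k * q.1 0) * gr2 u (Ph q.1 (q.2 : E k)) =
      GG u q.1 q.2 - 2 * al k * (UU u q.1 q.2 * U0 u q.1 q.2) := fun q => gr2_eq hu q.1 q.2
  have hHi : Integrable (fun q : X m × S k => Real.exp (k * q.1 0) *
      gr2 u (Ph q.1 (q.2 : E k))) (volume.prod (sm k)) := by
    simp only [heq]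
    exact hGi.sub (hCi.const_mul _)
  have hgm : Measurable (gr2 u) := by
    have : Continuous (gr2 u) := by
      unfold gr2
      refine Continuous.add ?_ ?_
      · exact continuous_finsetSum _ fun i _ => ((cont_fd hu).clm_apply continuous_const).pow 2
      · exact continuous_finsetSum _ fun i _ => ((cont_fd hu).clm_apply continuous_const).pow 2
    exact this.measurable
  obtain ⟨-, h2⟩ := pol_int hP (by omega : 1 ≤ k) (gr2 u) hgm hHi
  refine ⟨hGi.integral_prod_left, ?_⟩
  rw [h2]
  simp only [heq]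
  rw [integral_sub hGi (hCi.const_mul _), integral_const_mul, hC0, mul_zero, sub_zero,
    integral_prod _ hGi]
  rfl

end

end Pool.Agent.W2helper93.RT
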