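import Pool.Agent.W2helper90.RT.Stm

set_option autoImplicit false

/-! Polar coordinates on `ℝ^k × ℝ^m`: common lemmas for the pieces LEN and ENE. -/

open MeasureTheory Set Filter Topology

namespace Pool.Agent.W2helper93.RT

open Pool.Agent.W2helper90.RT

noncomputable section

variable {k m : ℕ}

/-- the polar map -/
def Ph (x : X m) (w : E k) : Z k m := (Real.exp (x 0) • w, tl x)

lemma cont_tl : Continuous (tl : X m → (Fin m → ℝ)) := by
  unfold tl; fun_prop

lemma cont_Ph : Continuous (fun q : X m × E k => Ph q.1 q.2) := by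
  have h1 : Continuous (fun q : X m × E k => q.1 0) := by fun_prop
  exact ((Real.continuous_exp.comp h1).smul continuous_snd).prodMk (cont_tl.comp continuous_fst)

lemma cont_PhS : Continuous (fun q : X m × S k => Ph q.1 (q.2 : E k)) :=
  cont_Ph.comp (continuous_fst.prodMk (continuous_subtype_val.comp continuous_snd))

/-- `u` and its derivative vanish outside a compact set of `x` -/
lemma good_K {u : Z k m → ℝ} (hu : Good u) : ∃ K : Set (X m), IsCompact K ∧
    ∀ x, x ∉ K → ∀ w : E k, ‖w‖ = 1 → u (Ph x w) = 0 ∧ fderiv ℝ u (Ph x w) = 0 := by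
  obtain ⟨ε, hε, haway⟩ := hu.away
  obtain ⟨R, hR⟩ := hu.supp.isBounded.subset_closedBall (0 : Z k m)
  set R' : ℝ := max R 1 with hR'
  have hR1 : 1 ≤ R' := le_max_right _ _
  set C : ℝ := max (max |Real.log ε| |Real.log R'|) R' with hC
  refine ⟨Metric.closedBall 0 C, isCompact_closedBall _ _, fun x hx w hw => ?_⟩
  have key : Ph x w ∉ tsupport u := by
    intro hz
    apply hx
    have h1 : Ph x w ∈ Metric.closedBall (0 : Z k m) R := hR hz
    rw [mem_closedBall_zero_iff] at h1
    have hz1 : ‖(Ph x w).1‖ = Real.exp (x 0) := by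
      show ‖Real.exp (x 0) • w‖ = _
      rw [norm_smul, hw, mul_one, Real.norm_of_nonneg (Real.exp_pos _).le]
    have h2 : Real.exp (x 0) ≤ R' := by
      rw [← hz1]; exact ((norm_fst_le _).trans h1).trans (le_max_left _ _)
    have h3 : ‖tl x‖ ≤ R' := ((norm_snd_le (Ph x w)).trans h1).trans (le_max_left _ _)
    have h4 : ε ≤ Real.exp (x 0) := by
      by_contra hcon
      push Not at hcon
      have hopen : IsOpen {z : Z k m | ‖z.1‖ < ε} := isOpen_lt (by fun_prop) continuous_const
      have hmem : Ph x w ∈ {z : Z k m | ‖z.1‖ < ε} := by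
        show ‖(Ph x w).1‖ < ε
        rw [hz1]; exact hcon
      rw [tsupport, mem_closure_iff] at hz
      obtain ⟨y, hy1, hy2⟩ := hz _ hopen hmem
      exact hy2 (haway y hy1)
    rw [mem_closedBall_zero_iff]
    refine (pi_norm_le_iff_of_nonneg (by positivity)).2 fun i => ?_
    refine Fin.cases ?_ (fun j => ?_) i
    · rw [Real.norm_eq_abs, abs_le]
      constructor
      · have : Real.log ε ≤ x 0 := by
          rw [Real.log_le_iff_le_exp hε]; exact h4
        have h5 : -|Real.log ε| ≤ Real.log ε := neg_abs_le _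
        have h6 : |Real.log ε| ≤ C := (le_max_left _ _).trans (le_max_left _ _)
        linarith
      · have : x 0 ≤ Real.log R' := by
          rw [Real.le_log_iff_exp_le (by linarith)]; exact h2
        have h5 : Real.log R' ≤ |Real.log R'| := le_abs_self _
        have h6 : |Real.log R'| ≤ C := (le_max_right _ _).trans (le_max_left _ _)
        linarith
    · have h5 : ‖tl x j‖ ≤ ‖tl x‖ := norm_le_pi_norm _ _
      have h6 : R' ≤ C := le_max_right _ _
      exact (h5.trans h3).trans h6
  refine ⟨image_eq_zero_of_notMem_tsupport key, ?_⟩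
  have h7 : Ph x w ∉ tsupport (fderiv ℝ u) := fun h => key (tsupport_fderiv_subset ℝ h)
  exact image_eq_zero_of_notMem_tsupport h7

/-- continuous functions with compact support in `x` are integrable -/
lemma int_of_K {F : X m × S k → ℝ} (hF : Continuous F) {K : Set (X m)} (hK : IsCompact K)
    (h0 : ∀ x, x ∉ K → ∀ w, F (x, w) = 0) : Integrable F (volume.prod (sm k)) := by
  apply hF.integrable_of_hasCompactSupport
  apply HasCompactSupport.of_support_subset_isCompact (hK.prod (isCompact_univ (X := S k)))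
  intro q hq
  refine ⟨?_, mem_univ _⟩
  by_contra hcon
  exact hq (h0 q.1 hcon q.2)

lemma pol_ofReal (hP : S_POL) (hk : 1 ≤ k) (f : Z k m → ℝ) (hf : Measurable f) :
    ∫⁻ z, ENNReal.ofReal (f z) = ∫⁻ q : X m × S k,
      ENNReal.ofReal (Real.exp (k * q.1 0) * f (Ph q.1 q.2)) ∂(volume.prod (sm k)) := by
  rw [hP k m hk (fun z => ENNReal.ofReal (f z)) hf.ennreal_ofReal]
  have hm : Measurable (fun q : X m × S k =>
      ENNReal.ofReal (Real.exp (k * q.1 0) * f (Ph q.1 q.2))) := by
    apply Measurable.ennreal_ofReal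
    apply Measurable.mul
    · fun_prop
    · exact hf.comp cont_PhS.measurable
  rw [lintegral_prod _ hm.aemeasurable]
  refine lintegral_congr fun x => ?_
  rw [← lintegral_const_mul' _ _ ENNReal.ofReal_ne_top]
  refine lintegral_congr fun w => ?_
  rw [ENNReal.ofReal_mul (Real.exp_pos _).le]
  rfl

/-- polar coordinates for Bochner integrals -/
lemma pol_int (hP : S_POL) (hk : 1 ≤ k) (f : Z k m → ℝ) (hf : Measurable f)
    (hi : Integrable (fun q : X m × S k => Real.exp (k * q.1 0) * f (Ph q.1 q.2))
      (volume.prod (sm k))) :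
    Integrable f ∧ ∫ z, f z = ∫ q : X m × S k, Real.exp (k * q.1 0) * f (Ph q.1 q.2)
      ∂(volume.prod (sm k)) := by
  have hfi : Integrable f := by
    refine ⟨hf.aestronglyMeasurable, ?_⟩
    have h1 := hi.2
    unfold HasFiniteIntegral at h1 ⊢
    have h2 : ∫⁻ z, ‖f z‖ₑ = ∫⁻ z, ENNReal.ofReal |f z| :=
      lintegral_congr fun z => by rw [Real.enorm_eq_ofReal_abs]
    rw [h2, pol_ofReal hP hk _ (by fun_prop : Measurable fun z => |f z|)]
    refine lt_of_le_of_lt (lintegral_mono fun q => ?_) h1
    rw [Real.enorm_eq_ofReal_abs, abs_mul, abs_of_pos (Real.exp_pos _)]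
  refine ⟨hfi, ?_⟩
  rw [integral_eq_lintegral_pos_part_sub_lintegral_neg_part hfi,
    integral_eq_lintegral_pos_part_sub_lintegral_neg_part hi, pol_ofReal hP hk f hf,
    pol_ofReal hP hk (fun z => -f z) hf.neg]
  simp only [mul_neg]

end

end Pool.Agent.W2helper93.RT
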